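import Pool.Agent.helper71.CL.Spec

set_option autoImplicit false

open MeasureTheory Set Filter Topology
open scoped ENNReal
open Pool.Agent.helper81.CW

noncomputable section

namespace Pool.Agent.CL

theorem PIN : PIN_stmt := by
  intro d e f g hf hg
  have m1 : Measurable (p1 d e) := by
    unfold p1
    refine (PiLp.volume_preserving_toLp (Fin d)).measurable.comp ?_
    refine measurable_pi_lambda _ fun i => ?_
    fun_prop
  have m2 : Measurable (p2 d e) := by
    unfold p2
    refine (PiLp.volume_preserving_toLp (Fin e)).measurable.comp ?_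
    refine measurable_pi_lambda _ fun i => ?_
    fun_prop
  have mF : Measurable (fun x : E (d + e) => f (p1 d e x) * g (p2 d e x)) :=
    (hf.comp m1).mul (hg.comp m2)
  have T1 := (PiLp.volume_preserving_toLp (Fin (d + e))).lintegral_comp mF
  have mG : Measurable (fun y : Fin (d + e) → ℝ =>
      f (p1 d e (WithLp.toLp 2 y)) * g (p2 d e (WithLp.toLp 2 y))) :=
    mF.comp (PiLp.volume_preserving_toLp (Fin (d + e))).measurable
  have T2 := (volume_measurePreserving_piCongrLeft (fun _ : Fin (d + e) => ℝ)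
    (finSumFinEquiv (m := d) (n := e))).lintegral_comp mG
  have mH : Measurable (fun z : (Fin d ⊕ Fin e) → ℝ =>
      f (p1 d e (WithLp.toLp 2 (MeasurableEquiv.piCongrLeft (fun _ : Fin (d + e) => ℝ)
        finSumFinEquiv z))) *
      g (p2 d e (WithLp.toLp 2 (MeasurableEquiv.piCongrLeft (fun _ : Fin (d + e) => ℝ)
        finSumFinEquiv z)))) :=
    mG.comp (MeasurableEquiv.measurable _)
  have T3 := (volume_measurePreserving_sumPiEquivProdPi_symm
    (fun _ : Fin d ⊕ Fin e => ℝ)).lintegral_comp mH
  rw [← T1, ← T2, ← T3]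
  have key : ∀ w : (Fin d → ℝ) × (Fin e → ℝ),
      (fun z : (Fin d ⊕ Fin e) → ℝ =>
      f (p1 d e (WithLp.toLp 2 (MeasurableEquiv.piCongrLeft (fun _ : Fin (d + e) => ℝ)
        finSumFinEquiv z))) *
      g (p2 d e (WithLp.toLp 2 (MeasurableEquiv.piCongrLeft (fun _ : Fin (d + e) => ℝ)
        finSumFinEquiv z)))) ((MeasurableEquiv.sumPiEquivProdPi
          (fun _ : Fin d ⊕ Fin e => ℝ)).symm w) =
      f (WithLp.toLp 2 w.1) * g (WithLp.toLp 2 w.2) := by
    intro w
    have h1 : p1 d e (WithLp.toLp 2 (MeasurableEquiv.piCongrLeft (fun _ : Fin (d + e) => ℝ)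
        finSumFinEquiv ((MeasurableEquiv.sumPiEquivProdPi
          (fun _ : Fin d ⊕ Fin e => ℝ)).symm w))) = WithLp.toLp 2 w.1 := by
      unfold p1
      congr 1
      funext i
      have : Fin.castAdd e i = finSumFinEquiv (Sum.inl i) := by simp
      show (MeasurableEquiv.piCongrLeft (fun _ : Fin (d + e) => ℝ)
        finSumFinEquiv ((MeasurableEquiv.sumPiEquivProdPi
          (fun _ : Fin d ⊕ Fin e => ℝ)).symm w)) (Fin.castAdd e i) = _
      rw [this]
      rw [MeasurableEquiv.coe_piCongrLeft, Equiv.piCongrLeft_apply_apply]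
      rfl
    have h2 : p2 d e (WithLp.toLp 2 (MeasurableEquiv.piCongrLeft (fun _ : Fin (d + e) => ℝ)
        finSumFinEquiv ((MeasurableEquiv.sumPiEquivProdPi
          (fun _ : Fin d ⊕ Fin e => ℝ)).symm w))) = WithLp.toLp 2 w.2 := by
      unfold p2
      congr 1
      funext i
      have : Fin.natAdd d i = finSumFinEquiv (Sum.inr i) := by simp
      show (MeasurableEquiv.piCongrLeft (fun _ : Fin (d + e) => ℝ)
        finSumFinEquiv ((MeasurableEquiv.sumPiEquivProdPi
          (fun _ : Fin d ⊕ Fin e => ℝ)).symm w)) (Fin.natAdd d i) = _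
      rw [this]
      rw [MeasurableEquiv.coe_piCongrLeft, Equiv.piCongrLeft_apply_apply]
      rfl
    simp only
    rw [h1, h2]
  rw [lintegral_congr key]
  have hf' : Measurable (fun y : Fin d → ℝ => f (WithLp.toLp 2 y)) :=
    hf.comp (PiLp.volume_preserving_toLp (Fin d)).measurable
  have hg' : Measurable (fun y : Fin e → ℝ => g (WithLp.toLp 2 y)) :=
    hg.comp (PiLp.volume_preserving_toLp (Fin e)).measurable
  have h3 := lintegral_prod_mul (μ := (volume : Measure (Fin d → ℝ)))
    (ν := (volume : Measure (Fin e → ℝ))) hf'.aemeasurable hg'.aemeasurable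
  rw [← Measure.volume_eq_prod] at h3
  rw [h3, (PiLp.volume_preserving_toLp (Fin d)).lintegral_comp hf,
    (PiLp.volume_preserving_toLp (Fin e)).lintegral_comp hg]

end Pool.Agent.CL
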